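import Pool.Agent.PSS.StmtsOB
import Pool.Agent.Helper77_PSS.TAU

/-!
# Squad PSS, row TAW (helper55): the projection onto a complement, any quotient `V / W`

Edit of Helper77_PSS/TAU.lean.
-/

set_option autoImplicit false

open scoped BigOperators TensorProduct

noncomputable section

namespace Pool.Agent.PSS.H55

open Pool.Agent.PSS
open Pool.Agent.PFD.D2b (FrR)
open Finset

theorem taw : TawStmt := by
  classical
  intro R K V E A B κ Ω _ _ _ _ _ _ _ _ _ _ _ _ _ _ _ φ W _ α lam x y b c C hV hS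
  obtain ⟨q, hq⟩ := H77T.exists_q hV hS
  obtain ⟨f1, f2, f3⟩ := C.frK
  -- the components
  let τ : V ⧸ W → (B →ₗ[K] B) := fun s =>
    ∑ ω, if q ω = s then (C.cK ω).smulRight (C.i (b ω)) else 0
  have hτ : ∀ s x, τ s x = ∑ ω, if q ω = s then C.cK ω x • C.i (b ω) else 0 := by
    intro s x
    simp only [τ]
    rw [LinearMap.sum_apply]
    refine Finset.sum_congr rfl fun ω _ => ?_
    split_ifs <;> rfl
  have hmove : ∀ (u w' : V), w' ∈ W → ∀ s x,
      bw K (ia C.i α) (u, w') (τ s x) = τ ((u : V ⧸ W) * s) (bw K (ia C.i α) (u, w') x) := by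
    intro u w' hw' s x
    rw [hτ, hτ, map_sum]
    conv_rhs => rw [← Equiv.sum_comp (MulAction.toPerm ((u, w') : V × V))]
    refine Finset.sum_congr rfl fun ω _ => ?_
    have e1 : (MulAction.toPerm ((u, w') : V × V)) ω = ((u, w') : V × V) • ω := rfl
    rw [e1, hq u w' hw' ω, f2]
    by_cases h : q ω = s
    · rw [if_pos h, if_pos (by rw [h]), map_smul]
      congr 1
      exact (f1 _ _).symm
    · rw [if_neg h, if_neg (fun h2 => h (mul_left_cancel h2)), map_zero]
  have hbl : ∀ (v : V) (x : B), bw K (ia C.i α) (v, 1) x = C.i (α v) * x := by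
    intro v x
    show C.i (α v) * (x * C.i (α (1 : V)⁻¹)) = _
    rw [inv_one, map_one, map_one, mul_one]
  have hbr : ∀ (v : V) (x : B), bw K (ia C.i α) (1, v⁻¹) x = x * C.i (α v) := by
    intro v x
    show C.i (α (1 : V)) * (x * C.i (α (v⁻¹)⁻¹)) = _
    rw [inv_inv, map_one, map_one, one_mul]
  refine ⟨τ 1, ?_, ?_, ?_⟩
  · intro a
    refine ⟨∑ ω, if q ω = 1 then c ω a • b ω else 0, ?_⟩
    rw [hτ, map_sum]
    refine Finset.sum_congr rfl fun ω _ => ?_
    split_ifs
    · rw [map_smul, C.ck, C.tow]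
    · rw [map_zero]
  · intro w hw x
    have hw1 : (w : V ⧸ W) = 1 := (QuotientGroup.eq_one_iff w).2 hw
    constructor
    · have h1 := hmove w 1 W.one_mem 1 x
      rw [hbl, hbl, hw1, mul_one] at h1
      exact h1.symm
    · have h1 := hmove 1 w⁻¹ (W.inv_mem hw) 1 x
      rw [hbr, hbr, mul_one, QuotientGroup.mk_one] at h1
      exact h1.symm
  · intro x
    have h1 : ∀ s : V ⧸ W, C.i (α s.out) * τ 1 (C.i (α (s.out)⁻¹) * x) = τ s x := by
      intro s
      have h2 := hmove s.out 1 W.one_mem 1 (C.i (α (s.out)⁻¹) * x)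
      rw [hbl, hbl, mul_one, ← mul_assoc (C.i (α s.out)), ← map_mul C.i, ← map_mul α,
        mul_inv_cancel, map_one, map_one, one_mul, QuotientGroup.out_eq'] at h2
      exact h2
    rw [Finset.sum_congr rfl fun s _ => h1 s, Finset.sum_congr rfl fun s _ => hτ s x,
      Finset.sum_comm]
    conv_rhs => rw [← f3 x]
    refine Finset.sum_congr rfl fun ω _ => ?_
    rw [Finset.sum_ite_eq]
    rw [if_pos (Finset.mem_univ _)]

end Pool.Agent.PSS.H55
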