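import Pool.Agent.PSS.StmtsS5

/-!
# Squad PSS, row LEQ: two local idempotents (helper55)
-/

namespace Pool.Agent.PSS.S5.H55

open Pool.Agent.PSS Pool.Agent.PSS.S5

section

variable {F V A : Type} [Field F] [CommGroup V] [Ring A] [Algebra F A]

theorem mem_cen {α : V →* A} {a : A} :
    a ∈ FxR (cw F α) ⊤ ↔ ∀ u, α u * a = a * α u := by
  have hin : ∀ u, α u⁻¹ * α u = 1 := fun u => by rw [← map_mul, inv_mul_cancel, map_one]
  have hin' : ∀ u, α u * α u⁻¹ = 1 := fun u => by rw [← map_mul, mul_inv_cancel, map_one]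
  constructor
  · intro h u
    have h1 : α u * (a * α u⁻¹) = a := h u (Subgroup.mem_top u)
    calc α u * a = α u * (a * (α u⁻¹ * α u)) := by rw [hin, mul_one]
      _ = α u * (a * α u⁻¹) * α u := by simp only [mul_assoc]
      _ = a * α u := by rw [h1]
  · intro h u _
    show α u * (a * α u⁻¹) = a
    rw [← mul_assoc, h u, mul_assoc, hin', mul_one]

theorem cen_mul {α : V →* A} {a b : A} (ha : a ∈ FxR (cw F α) ⊤) (hb : b ∈ FxR (cw F α) ⊤) :
    a * b ∈ FxR (cw F α) ⊤ := by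
  rw [mem_cen] at ha hb ⊢
  intro u
  rw [← mul_assoc, ha u, mul_assoc, hb u, mul_assoc]

end

theorem leq : LeqStmt := by
  intro F V A _ _ _ _ α j j' hj hj' p hp q hq
  rw [or_iff_not_imp_left]
  intro hn
  have hx : p * j' * q ∈ FxR (cw F α) ⊤ := cen_mul (cen_mul hp hj'.fx) hq
  have e0 : j * p * j' * q * j = j * (p * j' * q) * j := by simp only [mul_assoc]
  rcases hj.loc _ hx with h | ⟨y, hy, h1, -⟩
  · exact absurd (e0 ▸ h) hn
  obtain ⟨P, hP⟩ : ∃ P, P = j * p * j' := ⟨_, rfl⟩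
  obtain ⟨Q, hQ⟩ : ∃ Q, Q = j' * q * (j * y * j) := ⟨_, rfl⟩
  have hjP : j * P = P := by rw [hP, ← mul_assoc, ← mul_assoc, hj.id]
  have hPj : P * j' = P := by rw [hP, mul_assoc, hj'.id]
  have hjQ : j' * Q = Q := by
    rw [hQ, ← mul_assoc j' (j' * q), ← mul_assoc j' j' q, hj'.id]
  have hQj : Q * j = Q := by rw [hQ, mul_assoc, mul_assoc (j * y), hj.id]
  have hPQ : P * Q = j := by
    calc P * Q = j * p * (j' * j') * q * (j * y * j) := by rw [hP, hQ]; simp only [mul_assoc]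
      _ = j * p * j' * q * ((j * j) * y * j) := by rw [hj'.id, hj.id]
      _ = j * (p * j' * q) * j * (j * y * j) := by simp only [mul_assoc]
      _ = j := h1
  have hQP : Q * P * (Q * P) = Q * P := by
    rw [mul_assoc, ← mul_assoc P, hPQ, hjP]
  have hPm : P ∈ FxR (cw F α) ⊤ := hP ▸ cen_mul (cen_mul hj.fx hp) hj'.fx
  have hQm : Q ∈ FxR (cw F α) ⊤ := hQ ▸ cen_mul (cen_mul hj'.fx hq) (cen_mul (cen_mul hj.fx hy) hj.fx)
  have e1 : j' * (Q * P) * j' = Q * P := by
    rw [← mul_assoc j' Q P, hjQ, mul_assoc, hPj]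
  have key : Q * P = j' := by
    rcases hj'.loc _ (cen_mul hQm hPm) with ⟨m, hm⟩ | ⟨y', -, h3, -⟩
    · exfalso
      rw [e1] at hm
      have hidem : ∀ m, (Q * P) ^ (m + 1) = Q * P := by
        intro m
        induction m with
        | zero => rw [zero_add, pow_one]
        | succ m ih => rw [pow_succ, ih, hQP]
      have h0 : Q * P = 0 := by rw [← hidem m, pow_succ, hm, zero_mul]
      have hj0 : j = 0 := by
        calc j = P * Q * (P * Q) := by rw [hPQ, hj.id]
          _ = P * (Q * P) * Q := by simp only [mul_assoc]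
          _ = 0 := by rw [h0, mul_zero, zero_mul]
      exact hj.nz (by rw [hj0]; exact Submodule.zero_mem _)
    · rw [e1] at h3
      calc Q * P = Q * P * j' := by rw [mul_assoc Q P j', hPj]
        _ = Q * P * (Q * P * (j' * y' * j')) := by rw [h3]
        _ = Q * P * (Q * P) * (j' * y' * j') := by rw [mul_assoc (Q * P)]
        _ = j' := by rw [hQP, h3]
  exact ⟨P, hPm, Q, hQm, hjP, hPj, hjQ, hQj, hPQ, key⟩

end Pool.Agent.PSS.S5.H55
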